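import Pool.Agent.helper2.BB.Spec

set_option autoImplicit false

namespace BB

open Metric MeasureTheory Set Filter Topology Asymptotics

theorem A2 (hA1 : A1_stmt) : A2_stmt := by
  intro q w hq0 hq1 hw
  obtain ⟨hS, hR, hR2, hBs, hQ, hQ2, hQ4, hQ1, h1w, h1w'⟩ := hA1 q w hq0 hq1 hw
  have hQ2p : Qf q w ^ 2 + 1 ≠ 0 := by
    intro h
    have := congrArg Complex.re h
    simp only [Complex.add_re, Complex.one_re, Complex.zero_re] at this
    linarith
  have h1p : 1 - psi q w = 2 / (Qf q w ^ 2 + 1) := by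
    unfold psi
    field_simp
    ring
  have h2p : 1 + psi q w = 2 * Qf q w ^ 2 / (Qf q w ^ 2 + 1) := by
    unfold psi
    field_simp
    ring
  have h1p0 : 1 - psi q w ≠ 0 := by
    rw [h1p]
    exact div_ne_zero two_ne_zero hQ2p
  have hSg : Sg (psi q w) = Qf q w ^ 2 := by
    unfold Sg
    rw [h1p, h2p]
    field_simp
  have hKbS : ∀ v : ℂ, 1 - v ≠ 0 → Kb v = (Sg v ^ 2 - 1) / 4 := by
    intro v hv
    unfold Kb Sg
    field_simp
    ring
  have hKpsi : Kb (psi q w) = q * Kb w := by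
    rw [hKbS _ h1p0, hKbS _ h1w, hSg]
    have : (Qf q w ^ 2) ^ 2 = Bs q w := by rw [← hQ4]; ring
    rw [this]
    unfold Bs
    ring
  have hnorm : ‖psi q w‖ < 1 := by
    unfold psi
    rw [norm_div, div_lt_one (norm_pos_iff.mpr hQ2p)]
    have hsq : ‖Qf q w ^ 2 - 1‖ ^ 2 < ‖Qf q w ^ 2 + 1‖ ^ 2 := by
      rw [← Complex.normSq_eq_norm_sq, ← Complex.normSq_eq_norm_sq, Complex.normSq_apply, Complex.normSq_apply]
      simp only [Complex.sub_re, Complex.add_re, Complex.one_re, Complex.sub_im, Complex.add_im, Complex.one_im]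
      nlinarith
    exact lt_of_pow_lt_pow_left₀ 2 (norm_nonneg _) hsq
  have hsc : sc q w * w = psi q w := by
    have h2 : sc q w * w = q * Kb w * (1 - psi q w) ^ 2 := by
      unfold sc Kb
      field_simp
    rw [h2, ← hKpsi]
    unfold Kb
    field_simp
  have hRpsi : Rf (psi q w) = Qf q w := by
    unfold Rf
    rw [hSg]
    rw [one_div]
    exact Complex.sq_cpow_two_inv hQ
  have hBsK : Bs q w = 1 + 4 * q * Kb w := by
    rw [hKbS _ h1w]
    unfold Bs
    ring
  have hSg0 : Sg 0 = 1 := by unfold Sg; norm_num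
  have hBs0 : Bs q 0 = 1 := by unfold Bs; rw [hSg0]; ring
  have hQf0 : Qf q 0 = 1 := by unfold Qf; rw [hBs0, Complex.one_cpow]
  have hpsi0 : psi q 0 = 0 := by unfold psi; rw [hQf0]; norm_num
  have hsc0 : sc q 0 = q := by unfold sc; rw [hpsi0]; norm_num
  have hRf0 : Rf 0 = 1 := by unfold Rf; rw [hSg0, Complex.one_cpow]
  have hpsi1 : psi 1 w = w := by
    unfold psi
    rw [hQ1, hR2]
    unfold Sg
    have h3 : (1 + w) / (1 - w) + 1 = 2 / (1 - w) := by field_simp; ring
    have h4 : (1 + w) / (1 - w) - 1 = 2 * w / (1 - w) := by field_simp; ring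
    rw [h3, h4]
    field_simp
  have hsc1 : sc 1 w = 1 := by
    unfold sc
    rw [hpsi1, div_self h1w]
    norm_num
  exact ⟨hnorm, hKpsi, hsc, hSg, hRpsi, hBsK, hpsi0, hsc0, hRf0, hQf0, hpsi1, hsc1⟩

end BB
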