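import Pool.Agent.helper2.BB.Spec

set_option autoImplicit false

namespace BB

open Metric MeasureTheory Set Filter Topology Asymptotics

theorem B2 (hA1 : A1_stmt) (hA2 : A2_stmt) (hA3 : A3_stmt) : B2_stmt := by
  intro E _ _ _ ε u z hu hz
  have huu : (inner ℂ u u : ℂ) = 1 := by
    rw [inner_self_eq_norm_sq_to_K, hu]
    norm_num
  have hw : ‖(inner ℂ u z : ℂ)‖ < 1 := by
    calc ‖(inner ℂ u z : ℂ)‖ ≤ ‖u‖ * ‖z‖ := norm_inner_le_norm u z
      _ = ‖z‖ := by rw [hu, one_mul]
      _ < 1 := hz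
  have hy : (inner ℂ u (z - (inner ℂ u z : ℂ) • u) : ℂ) = 0 := by
    rw [inner_sub_right, inner_smul_right, huu, mul_one, sub_self]
  have hin : ∀ q : ℝ, 0 < q → q ≤ 1 → (inner ℂ u (VV ε u q z) : ℂ) = psi q (inner ℂ u z) := by
    intro q hq0 hq1
    obtain ⟨-, -, hsc, -⟩ := hA2 q _ hq0 hq1 hw
    unfold VV
    rw [inner_smul_right, inner_add_right, inner_smul_right, inner_smul_right, huu, hy, mul_one, mul_zero, add_zero, hsc]
  have hVV : ∀ q : ℝ, 0 < q → q ≤ 1 → VV ε u q z = psi q (inner ℂ u z) • u +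
      (sc q (inner ℂ u z) * rho ε q (inner ℂ u z)) • (z - (inner ℂ u z : ℂ) • u) := by
    intro q hq0 hq1
    obtain ⟨-, -, hsc, -⟩ := hA2 q _ hq0 hq1 hw
    unfold VV
    rw [smul_add, smul_smul, smul_smul, hsc]
  refine ⟨?_, ?_⟩
  · obtain ⟨-, -, hsc, -, -, -, -, -, -, -, hpsi1, hsc1⟩ := hA2 1 _ one_pos le_rfl hw
    obtain ⟨-, hR, -, -, -, -, -, hQ1, -, -⟩ := hA1 1 _ one_pos le_rfl hw
    have hR0 : Rf (inner ℂ u z) ≠ 0 := by
      intro h
      rw [h] at hR
      simp at hR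
    have hrho : rho ε 1 (inner ℂ u z) = 1 := by
      cases ε
      · rfl
      · show Rf _ / Qf 1 _ = 1
        rw [hQ1, div_self hR0]
    rw [hVV 1 one_pos le_rfl, hpsi1, hsc1, hrho, one_mul, one_smul, add_sub_cancel]
  · intro t ht
    have hq0 : 0 < Real.exp (-t) := Real.exp_pos _
    have hq1 : Real.exp (-t) ≤ 1 := Real.exp_le_one_iff.mpr (by linarith)
    obtain ⟨hdQ, hdpsi, hdsc⟩ := hA3 (inner ℂ u z) t hw ht
    obtain ⟨-, -, -, -, hQ, -, -, -, -, -⟩ := hA1 (Real.exp (-t)) _ hq0 hq1 hw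
    have hQ0 : Qf (Real.exp (-t)) (inner ℂ u z) ≠ 0 := by
      intro h
      rw [h] at hQ
      simp at hQ
    -- the derivative of sc * rho
    have hprod : HasDerivAt (fun τ : ℝ => sc (Real.exp (-τ)) (inner ℂ u z) * rho ε (Real.exp (-τ)) (inner ℂ u z))
        (-((sc (Real.exp (-t)) (inner ℂ u z) * rho ε (Real.exp (-t)) (inner ℂ u z)) *
          (pp (psi (Real.exp (-t)) (inner ℂ u z)) - bif ε then psi (Real.exp (-t)) (inner ℂ u z) /
            (1 + psi (Real.exp (-t)) (inner ℂ u z)) ^ 2 else 0))) t := by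
      cases ε
      · have : (fun τ : ℝ => sc (Real.exp (-τ)) (inner ℂ u z) * rho false (Real.exp (-τ)) (inner ℂ u z)) =
            fun τ : ℝ => sc (Real.exp (-τ)) (inner ℂ u z) := by
          funext τ
          show _ * 1 = _
          rw [mul_one]
        rw [this]
        have h2 : (-((sc (Real.exp (-t)) (inner ℂ u z) * rho false (Real.exp (-t)) (inner ℂ u z)) *
          (pp (psi (Real.exp (-t)) (inner ℂ u z)) - bif false then psi (Real.exp (-t)) (inner ℂ u z) /
            (1 + psi (Real.exp (-t)) (inner ℂ u z)) ^ 2 else 0))) =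
            -(sc (Real.exp (-t)) (inner ℂ u z) * pp (psi (Real.exp (-t)) (inner ℂ u z))) := by
          show -((_ * 1) * (_ - 0)) = _
          rw [mul_one, sub_zero]
        rw [h2]
        exact hdsc
      · have hd := hdsc.mul ((hasDerivAt_const t (Rf (inner ℂ u z))).div hdQ hQ0)
        have h3 : (fun τ : ℝ => sc (Real.exp (-τ)) (inner ℂ u z) * rho true (Real.exp (-τ)) (inner ℂ u z)) =
            (fun τ : ℝ => sc (Real.exp (-τ)) (inner ℂ u z)) *
              ((fun _ : ℝ => Rf (inner ℂ u z)) / (fun τ : ℝ => Qf (Real.exp (-τ)) (inner ℂ u z))) := by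
          funext τ
          rfl
        rw [h3]
        refine hd.congr_deriv ?_
        simp only [Pi.div_apply]
        show _ = -((sc (Real.exp (-t)) (inner ℂ u z) * (Rf (inner ℂ u z) / Qf (Real.exp (-t)) (inner ℂ u z))) *
          (pp (psi (Real.exp (-t)) (inner ℂ u z)) - psi (Real.exp (-t)) (inner ℂ u z) /
            (1 + psi (Real.exp (-t)) (inner ℂ u z)) ^ 2))
        field_simp
        ring
    have hfun : (fun τ : ℝ => VV ε u (Real.exp (-τ)) z) = fun τ : ℝ =>
        (sc (Real.exp (-τ)) (inner ℂ u z) * inner ℂ u z) • u +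
      (sc (Real.exp (-τ)) (inner ℂ u z) * rho ε (Real.exp (-τ)) (inner ℂ u z)) • (z - (inner ℂ u z : ℂ) • u) := by
      funext τ
      unfold VV
      rw [smul_add, smul_smul, smul_smul]
    rw [hfun]
    have hD := ((hdsc.mul_const (inner ℂ u z : ℂ)).smul_const u).add (hprod.smul_const (z - (inner ℂ u z : ℂ) • u))
    refine hD.congr_deriv ?_
    obtain ⟨-, -, hsc, -⟩ := hA2 (Real.exp (-t)) _ hq0 hq1 hw
    have hi := hin (Real.exp (-t)) hq0 hq1
    have hv := hVV (Real.exp (-t)) hq0 hq1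
    unfold hf
    rw [hi]
    have h5 : VV ε u (Real.exp (-t)) z - psi (Real.exp (-t)) (inner ℂ u z) • u =
        (sc (Real.exp (-t)) (inner ℂ u z) * rho ε (Real.exp (-t)) (inner ℂ u z)) • (z - (inner ℂ u z : ℂ) • u) := by
      rw [hv, add_sub_cancel_left]
    rw [h5, smul_smul, neg_add, ← neg_smul, ← neg_smul]
    congr 1
    · congr 1
      rw [neg_mul, mul_right_comm, hsc]
    · congr 1
      ring

end BB
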